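import Pool.Agent.Y472.G.Defs
import Pool.Agent.Y472.A.Final

/-!
# Mirror images of closed 3-braids have coloured Jones polynomials of the same modulus
-/

set_option autoImplicit false

namespace Pool.Agent.Y458.CG

open Finset Pool.Agent.W711.HT Pool.Agent.Y472
open scoped Real ComplexConjugate

theorem conj_Ea (a : ℤ) (N : ℕ) (ψ : ℂ) : conj (Ea a N ψ) = Ea (-a) N (conj ψ) := by
  unfold Ea
  rw [← Complex.exp_conj]
  congr 1
  simp only [map_div₀, map_mul, map_pow, Complex.conj_I, Complex.conj_ofReal, map_intCast,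
    map_natCast, map_ofNat, Int.cast_neg]
  ring

theorem Ea_even (a : ℤ) (N : ℕ) (ψ : ℂ) : Ea a N (-ψ) = Ea a N ψ := by
  unfold Ea
  rw [neg_sq]

theorem conj_Rp (N d : ℕ) (ψ : ℂ) : conj (Rp N d ψ) = Rp N d (conj ψ) := by
  unfold Rp
  rw [map_prod]
  refine prod_congr rfl fun j _ => ?_
  rw [map_add, map_mul, map_mul, ← Complex.cos_conj, Complex.conj_ofReal, map_ofNat]

theorem Rp_even (N d : ℕ) (ψ : ℂ) : Rp N d (-ψ) = Rp N d ψ := by
  unfold Rp
  simp only [Complex.cos_neg]

theorem conj_kr (N : ℕ) (ψ : ℂ) : conj (kr N ψ) = kr N (conj ψ) := by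
  unfold kr
  simp only [map_div₀, map_mul, map_pow, ← Complex.cos_conj, ← Complex.sin_conj, map_add,
    Complex.conj_ofReal, map_natCast, map_ofNat]

theorem cos_sub_nat (x : ℂ) (N : ℕ) : Complex.cos (x - N * π) ^ 2 = Complex.cos x ^ 2 := by
  induction N with
  | zero => simp
  | succ n ih =>
    rw [← ih]
    have h : x - ((n + 1 : ℕ) : ℂ) * π = (x - n * π) - π := by
      push_cast; ring
    rw [h, Complex.cos_sub_pi, neg_sq]

theorem kr_odd (N : ℕ) (ψ : ℂ) : kr N (-ψ) = -kr N ψ := by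
  unfold kr
  have h : Complex.cos (N * (-ψ + π) / 2) ^ 2 = Complex.cos (N * (ψ + π) / 2) ^ 2 := by
    rw [← Complex.cos_neg, ← cos_sub_nat (N * (ψ + π) / 2) N]
    congr 2
    ring
  rw [h, Complex.sin_neg]
  ring

/-- the path integral of an odd function, and complex conjugation -/
theorem upp_conj (h : ℝ) (hh : 0 ≤ h) (f g : ℂ → ℂ) (hfg : ∀ ψ, conj (f ψ) = g (conj ψ))
    (hg : ∀ ψ, g (-ψ) = -g ψ) : upp h g = -conj (upp h f) := by
  unfold upp
  have hc : ∀ (a b : ℝ) (F : ℝ → ℂ), a ≤ b →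
      conj (∫ y in a..b, F y) = ∫ y in a..b, conj (F y) := by
    intro a b F hab
    rw [intervalIntegral.integral_of_le hab, intervalIntegral.integral_of_le hab, integral_conj]
  have hpi : -π ≤ π := by linarith [Real.pi_pos]
  rw [map_sub, map_add, map_mul, map_mul, Complex.conj_I, hc 0 h _ hh, hc 0 h _ hh,
    hc (-π) π _ hpi]
  have h1 : ∀ y : ℝ, conj (f (-π + y * Complex.I)) = -g (π + y * Complex.I) := by
    intro y
    rw [hfg, ← hg]
    congr 1
    simp only [map_add, map_neg, map_mul, Complex.conj_ofReal, Complex.conj_I]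
    ring
  have h2 : ∀ y : ℝ, conj (f (π + y * Complex.I)) = -g (-π + y * Complex.I) := by
    intro y
    rw [hfg, ← hg]
    congr 1
    simp only [map_add, map_mul, Complex.conj_ofReal, Complex.conj_I]
    ring
  have h3 : ∀ x : ℝ, conj (f (x + h * Complex.I)) = -g (((-x : ℝ) : ℂ) + h * Complex.I) := by
    intro x
    rw [hfg, ← hg]
    congr 1
    simp only [map_add, map_mul, Complex.conj_ofReal, Complex.conj_I, Complex.ofReal_neg]
    ring
  simp only [h1, h2, h3]
  rw [intervalIntegral.integral_neg, intervalIntegral.integral_neg, intervalIntegral.integral_neg,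
    intervalIntegral.integral_comp_neg (fun x : ℝ => g ((x : ℂ) + h * Complex.I)), neg_neg]
  ring

theorem cJ_neg (N : ℕ) (a : ℤ) (i j : ℕ) : cJ N (-a) i j = -conj (cJ N a i j) := by
  unfold cJ
  rw [upp_conj (1 / N) (by positivity)
    (fun ψ => Ea a N ψ * Rp N (N - 1 - j) ψ * Rp N i ψ * kr N ψ)]
  · simp only [map_mul, map_div₀, map_pow, map_neg, map_one, map_ofNat, Complex.conj_ofReal]
    ring
  · intro ψ
    simp only [map_mul, conj_Ea, conj_Rp, conj_kr]
  · intro ψ
    rw [Ea_even, Rp_even, Rp_even, kr_odd]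
    ring

theorem conj_Ph (N : ℕ) (χ : ℂ) (t : ℕ) : conj (Ph N χ t) = Ph N (conj χ) t := by
  unfold Ph
  simp only [map_mul, map_sub, ← Complex.cos_conj, Complex.conj_ofReal, map_ofNat]

theorem MA0_neg (N : ℕ) (a : ℤ) : MA0 N (-a) = -(MA0 N a).map conj := by
  ext i j
  change (if j ≤ i then cJ N (-a) j i else 0) = -conj (if j ≤ i then cJ N a j i else 0)
  split_ifs
  · exact cJ_neg N a j i
  · simp

theorem MB0_neg (N : ℕ) (χ : ℂ) (b : ℤ) : MB0 N χ (-b) = -(MB0 N (conj χ) b).map conj := by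
  ext i j
  change (if i ≤ j then (∏ t ∈ Ioc (i : ℕ) j, Ph N χ t) * cJ N (-b) i j else 0) =
    -conj (if i ≤ j then (∏ t ∈ Ioc (i : ℕ) j, Ph N (conj χ) t) * cJ N b i j else 0)
  split_ifs
  · rw [cJ_neg, map_mul, map_prod]
    simp only [conj_Ph, Complex.conj_conj]
    ring
  · simp

theorem map_trace {n : ℕ} (M : Matrix (Fin n) (Fin n) ℂ) :
    (M.map conj).trace = conj M.trace := by
  simp only [Matrix.trace, Matrix.diag_apply, Matrix.map_apply, map_sum]

theorem map_mulM {n : ℕ} (M M' : Matrix (Fin n) (Fin n) ℂ) :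
    (M * M').map conj = M.map conj * M'.map conj :=
  Matrix.map_mul

theorem map_oneM {n : ℕ} :
    (1 : Matrix (Fin n) (Fin n) ℂ).map (starRingEnd ℂ) = 1 := by
  ext i j
  simp only [Matrix.map_apply, Matrix.one_apply]
  split_ifs <;> simp

theorem map_prodM {n : ℕ} (L : List (Matrix (Fin n) (Fin n) ℂ)) :
    (L.map fun M => M.map (starRingEnd ℂ)).prod = L.prod.map (starRingEnd ℂ) := by
  induction L with
  | nil => simp
  | cons M L ih => rw [List.map_cons, List.prod_cons, List.prod_cons, ih, map_mulM]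

theorem Tf_neg (N : ℕ) (ls : List (ℤ × ℤ)) (χ : ℂ) :
    Tf N (ls.map fun p => (-p.1, -p.2)) χ = conj (Tf N ls (conj χ)) := by
  unfold Tf
  rw [← map_trace, ← map_prodM, List.map_map, List.map_map]
  congr 3
  funext p
  simp only [Function.comp]
  rw [MA0_neg, MB0_neg, map_mulM, neg_mul_neg]

theorem map_pH (N p : ℕ) : (pH N p).map (starRingEnd ℂ) = pH N p := by
  ext i j
  unfold pH
  simp only [Matrix.map_apply, Matrix.diagonal_apply]
  split_ifs <;> simp

theorem Thi_neg (N : ℕ) (ls : List (ℤ × ℤ)) (p : ℕ) :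
    Thi N (ls.map fun p => (-p.1, -p.2)) p = conj (Thi N ls p) := by
  have hr : conj (2 * (π : ℂ) * p / N) = 2 * (π : ℂ) * p / N := by
    simp only [map_div₀, map_mul, Complex.conj_ofReal, map_natCast, map_ofNat]
  have key : ∀ q : ℤ × ℤ, MA0 N (-q.1) * pH N p * MB0 N (2 * (π : ℂ) * p / N) (-q.2) * pH N p =
      (MA0 N q.1 * pH N p * MB0 N (2 * (π : ℂ) * p / N) q.2 * pH N p).map (starRingEnd ℂ) := by
    intro q
    rw [MA0_neg, MB0_neg, hr, map_mulM, map_mulM, map_mulM, map_pH]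
    simp only [Matrix.neg_mul, Matrix.mul_neg, neg_neg]
  have key2 : (ls.map fun q => (-q.1, -q.2)).map (fun q => MA0 N q.1 * pH N p *
      MB0 N (2 * (π : ℂ) * p / N) q.2 * pH N p) = (ls.map fun q => MA0 N q.1 * pH N p *
      MB0 N (2 * (π : ℂ) * p / N) q.2 * pH N p).map fun M => M.map (starRingEnd ℂ) := by
    rw [List.map_map, List.map_map]
    exact List.map_congr_left fun q _ => key q
  unfold Thi
  rw [key2, map_prodM, ← map_trace, map_mulM, map_pH]

theorem wE_neg (N : ℕ) (m : ℤ) (χ : ℂ) : wE N (-m) χ = conj (wE N m (conj χ)) := by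
  unfold wE
  rw [map_mul, conj_Ea, ← Complex.sin_conj, Complex.conj_conj, mul_neg]

/-- mirror images, from the exact formula -/
theorem mir_of (hEX : ∀ (N : ℕ) (ls : List (ℤ × ℤ)) (m : ℤ), 2 ≤ N → ls ≠ [] →
    ‖Pool.Agent.H550R3.Jones.cjones N 2 (ftw m ++ bw ls) (vN N)‖ =
    ‖∑ p ∈ range N, deriv (fun χ => wE N m χ * Tf N ls χ) (2 * π * p / N) -
      2 * Complex.I * m * N * ∑ p ∈ range N, wE N m (2 * π * p / N) * Thi N ls p‖) : S_MIR := by
  intro N ls m hN hl
  have hl' : (ls.map fun p => (-p.1, -p.2)) ≠ [] := by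
    intro h
    exact hl (List.map_eq_nil_iff.mp h)
  rw [hEX N ls m hN hl, hEX N _ (-m) hN hl']
  have hr : ∀ p : ℕ, conj (2 * (π : ℂ) * p / N) = 2 * (π : ℂ) * p / N := by
    intro p
    simp only [map_div₀, map_mul, Complex.conj_ofReal, map_natCast, map_ofNat]
  have hd : ∀ p : ℕ, deriv (fun χ => wE N (-m) χ * Tf N (ls.map fun p => (-p.1, -p.2)) χ)
      (2 * π * p / N) = conj (deriv (fun χ => wE N m χ * Tf N ls χ) (2 * π * p / N)) := by
    intro p
    have : (fun χ => wE N (-m) χ * Tf N (ls.map fun p => (-p.1, -p.2)) χ) =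
        conj ∘ (fun χ => wE N m χ * Tf N ls χ) ∘ conj := by
      funext χ
      simp only [Function.comp, map_mul]
      rw [wE_neg, Tf_neg]
    rw [this, deriv_conj_conj, Function.comp_apply, Function.comp_apply, hr]
  have hs : ∀ p : ℕ, wE N (-m) (2 * π * p / N) * Thi N (ls.map fun p => (-p.1, -p.2)) p =
      conj (wE N m (2 * π * p / N) * Thi N ls p) := by
    intro p
    rw [wE_neg, Thi_neg, hr, map_mul]
  simp only [hd, hs]
  rw [← map_sum, ← map_sum, ← Complex.norm_conj]
  congr 1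
  simp only [map_sub, map_mul, Complex.conj_conj, Complex.conj_I, map_intCast, map_natCast,
    map_ofNat, Int.cast_neg, map_neg]
  ring

/-- mirror images -/
theorem mir : S_MIR := mir_of exact_formula

end Pool.Agent.Y458.CG
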